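import Pool.Agent.Run7.h721.KL3.Final3
import Pool.Agent.W863.AllK

/-!
# Every level of a line arrangement
-/

namespace Pool.Agent.Run7.h721.KL3

open KLev Finset Filter Topology Pool.Agent.W863.AllK

/-- every level that is not too close to the bottom or the top -/
theorem all_levels (C : ℝ) : ∃ k₀ : ℕ, ∀ n k : ℕ, k₀ ≤ k → k + k₀ ≤ n →
    (n : ℝ) * ((min k (n - k) : ℕ) : ℝ) ^
      (C / (Real.log (Real.log ((min k (n - k) : ℕ) : ℝ))) ^ 3) ≤ (Levels.e k n : ℝ) := by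
  obtain ⟨a, ha⟩ := (finalP 4 C).exists_forall_of_atTop
  refine ⟨a + 3, fun n k h1 h2 => ?_⟩
  obtain ⟨x, hx⟩ : ∃ x, x = min k (n - k) := ⟨_, rfl⟩
  rw [← hx]
  obtain ⟨N, E, P, hH, hN, hE⟩ := ha (x - 1) (by omega)
  have hx0 : (0:ℝ) < x := by
    have : 0 < x := by omega
    exact_mod_cast this
  have hE' := hE x (by exact_mod_cast (by omega : x - 1 ≤ x))
    (by exact_mod_cast (by omega : x ≤ 8 * (x - 1)))
  have key : ∃ g, g ≤ 2 * x ∧ 0 < g ∧ g ≤ n ∧ n / g * E ≤ Levels.e k n := by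
    by_cases hk : 2 * k + 1 ≤ n
    · exact ⟨N + k + 1, by omega, by omega, by omega,
        (many' hH (by omega : N ≤ k + 1) (by omega)).le_e⟩
    · refine ⟨N + (n - 2 - k) + 1, by omega, by omega, by omega, ?_⟩
      exact (flip (many' (n := n) hH (by omega : N ≤ (n - 2 - k) + 1) (by omega))
        (by omega : n - 2 - k + k + 2 = n)).le_e
  obtain ⟨g, g1, g0, g2, g3⟩ := key
  have g4 : n ≤ 4 * x * (n / g) := by
    have h5 : n < (n / g + 1) * g := Nat.lt_mul_of_div_lt (Nat.lt_succ_self _) g0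
    have h6 : 1 ≤ n / g := Nat.div_pos g2 g0
    have h7 : (n / g + 1) * g ≤ (2 * (n / g)) * (2 * x) := Nat.mul_le_mul (by omega) g1
    nlinarith
  set δ : ℝ := C / (Real.log (Real.log (x : ℝ))) ^ 3 with hδ
  rw [Real.rpow_add hx0, Real.rpow_one] at hE'
  have g5 : (n:ℝ) ≤ 4 * x * ((n / g : ℕ) : ℝ) := by exact_mod_cast g4
  have g6 : (((n / g : ℕ) : ℝ)) * E ≤ Levels.e k n := by exact_mod_cast g3
  have hp : (0:ℝ) ≤ (x:ℝ) ^ δ := Real.rpow_nonneg hx0.le _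
  have hd : (0:ℝ) ≤ ((n / g : ℕ) : ℝ) := Nat.cast_nonneg _
  calc (n:ℝ) * (x:ℝ) ^ δ ≤ (4 * x * ((n / g : ℕ) : ℝ)) * (x:ℝ) ^ δ :=
        mul_le_mul_of_nonneg_right g5 hp
    _ = ((n / g : ℕ) : ℝ) * (4 * (x * (x:ℝ) ^ δ)) := by ring
    _ ≤ ((n / g : ℕ) : ℝ) * E := mul_le_mul_of_nonneg_left hE' hd
    _ ≤ _ := g6

end Pool.Agent.Run7.h721.KL3
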