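import Mathlib

/-!
# Project KL3: the depth function and geometric sums
-/

namespace Pool.Agent.Run7.h721.KL3

open Finset

/-- the depth of the recursion -/
def Dp (m : ℕ) : ℕ := if m < 32 then 1 else Dp (m - Nat.log 2 m - 6) + 1
termination_by m
decreasing_by omega

lemma Dp_small {m : ℕ} (h : m < 32) : Dp m = 1 := by
  rw [Dp, if_pos h]

lemma Dp_big {m : ℕ} (h : 32 ≤ m) : Dp m = Dp (m - Nat.log 2 m - 6) + 1 := by
  conv_lhs => rw [Dp]
  rw [if_neg (by omega)]

lemma Dp_pos (m : ℕ) : 1 ≤ Dp m := by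
  by_cases h : m < 32
  · rw [Dp_small h]
  · rw [Dp_big (by omega)]; omega

lemma log_add_le {x m : ℕ} (hx : 1 ≤ x) (h : x ≤ m) : Nat.log 2 m ≤ Nat.log 2 x + (m - x) := by
  obtain ⟨d, rfl⟩ : ∃ d, m = x + d := ⟨m - x, by omega⟩
  have h1 : x + d ≤ x * 2 ^ d := by
    have h2 : d + 1 ≤ 2 ^ d := Nat.lt_two_pow_self
    calc x + d = x * 1 + 1 * d := by ring
      _ ≤ x * 1 + x * d := Nat.add_le_add_left (Nat.mul_le_mul_right _ hx) _
      _ = x * (d + 1) := by ring
      _ ≤ x * 2 ^ d := Nat.mul_le_mul_left _ h2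
  have h2 : x < 2 ^ (Nat.log 2 x + 1) := Nat.lt_pow_succ_log_self (by norm_num) x
  have h3 : x + d < 2 ^ (Nat.log 2 x + 1 + d) := by
    refine lt_of_le_of_lt h1 ?_
    rw [pow_add]
    exact Nat.mul_lt_mul_of_pos_right h2 (by positivity)
  have h4 := Nat.log_lt_of_lt_pow (by omega) h3
  omega

lemma Dp_mono : ∀ m x : ℕ, x ≤ m → Dp x ≤ Dp m := by
  intro m
  induction m using Nat.strong_induction_on with
  | _ m ih =>
    intro x hx
    by_cases h1 : x < 32
    · rw [Dp_small h1]; exact Dp_pos m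
    · have h2 : 32 ≤ m := by omega
      rw [Dp_big (m := x) (by omega), Dp_big h2]
      have h3 := log_add_le (by omega) hx
      exact Nat.add_le_add_right (ih _ (by omega) _ (by omega)) 1

lemma Dp_slow (k : ℕ) : ∃ K, ∀ m, k * Dp m ≤ m + K := by
  have hle : 1 ≤ 2 ^ k := Nat.one_le_two_pow
  refine ⟨k * (2 ^ k + 33), ?_⟩
  have h0 : ∀ m, Dp m ≤ m + 1 := by
    intro m
    induction m using Nat.strong_induction_on with
    | _ m ih =>
      by_cases h1 : m < 32
      · rw [Dp_small h1]; omega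
      · rw [Dp_big (by omega)]
        have := ih (m - Nat.log 2 m - 6) (by omega)
        omega
  intro m
  induction m using Nat.strong_induction_on with
  | _ m ih =>
    by_cases h1 : m < 2 ^ k + 32
    · have h3 := h0 m
      have h2 : k * Dp m ≤ k * (2 ^ k + 33) := Nat.mul_le_mul_left _ (by omega)
      omega
    · have h32 : 32 ≤ m := by omega
      have h2 := ih (m - Nat.log 2 m - 6) (by omega)
      rw [Dp_big (by omega), Nat.mul_add, mul_one]
      have h3 : k ≤ Nat.log 2 m := Nat.le_log_of_pow_le (by norm_num) (by omega)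
      have h4 : Nat.log 2 m + 6 ≤ m := by
        have h5 : 2 ^ Nat.log 2 m ≤ m := Nat.pow_log_le_self 2 (by omega)
        have h6 := log_add_le (x := 32) (m := m) (by norm_num) (by omega)
        have h7 : Nat.log 2 32 = 5 := by
          rw [show (32:ℕ) = 2 ^ 5 by norm_num, Nat.log_pow (by norm_num)]
        omega
      omega

/-- geometric sums in groups of `n` equal terms -/
lemma geo (n s : ℕ) (hn : 1 ≤ n) : ∀ j, j ≤ s + 1 →
    ∑ i ∈ range (n * j), 2 ^ (s - i / n) + n * 2 ^ (s + 1 - j) = n * 2 ^ (s + 1) := by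
  intro j
  induction j with
  | zero => intro _; simp
  | succ j ih =>
    intro hj
    have h1 := ih (by omega)
    have h2 : ∑ i ∈ range (n * (j + 1)), 2 ^ (s - i / n) =
        ∑ i ∈ range (n * j), 2 ^ (s - i / n) + n * 2 ^ (s - j) := by
      rw [show n * (j + 1) = n * j + n by ring, Finset.sum_range_add]
      congr 1
      rw [Finset.sum_congr rfl (g := fun _ => 2 ^ (s - j))]
      · simp
      · intro i hi
        rw [Finset.mem_range] at hi
        congr 2
        rw [Nat.mul_add_div (by omega), Nat.div_eq_of_lt hi, add_zero]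
    rw [h2]
    have h3 : s + 1 - j = (s - j) + 1 := by omega
    have h4 : s + 1 - (j + 1) = s - j := by omega
    rw [h3, pow_succ] at h1
    rw [h4]
    rw [← h1]; ring

/-- partial sums -/
lemma geo_le (n s i K : ℕ) (hn : 1 ≤ n) (hK : K ≤ s + 1) (hi : i < n * K) :
    ∑ j ∈ range (i + 1), 2 ^ (s - j / n) + n * 2 ^ (s - i / n) ≤ n * 2 ^ (s + 1) := by
  have h1 : i / n < K := by
    rw [Nat.div_lt_iff_lt_mul (by omega)]
    rw [mul_comm]; exact hi
  have h2 := geo n s hn (i / n + 1) (by omega)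
  have h3 : s + 1 - (i / n + 1) = s - i / n := by omega
  rw [h3] at h2
  rw [← h2]
  apply Nat.add_le_add_right
  apply Finset.sum_le_sum_of_subset
  apply Finset.range_subset_range.mpr
  have h4 := Nat.div_add_mod i n
  have h5 := Nat.mod_lt i (show 0 < n by omega)
  calc i + 1 ≤ n * (i / n) + n := by omega
    _ = n * (i / n + 1) := by ring

end Pool.Agent.Run7.h721.KL3
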