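import Pool.Agent.Run7.h721.KL3.LevFin
import Pool.Agent.Run7.h610.KL3.COMP
import Pool.Agent.Run7.h929.KL3.UPS
import Pool.Agent.Run7.h216.KL3.CHAIN
import Pool.Agent.Run7.h216.KL3.FIN

/-!
# Project KL3: the final estimate

For every constant `C` and all large `m` there is an arrangement certificate `KLev.Has N E P` with
`N ≤ m` lines whose number `E` of changes is at least `C * x ^ (1 + C / (log log x) ^ 3)` for
all `x ∈ [m, 8 m]`.
-/

set_option linter.unusedVariables false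

namespace Pool.Agent.Run7.h721.KL3

open Finset Filter Topology
open Pool.Agent.N35.HL

theorem lev : S_LEV :=
  t_LEV (Pool.Agent.Run7.h216.KL3.t_CHAIN Pool.Agent.Run7.h929.KL3.t_START
    Pool.Agent.Run7.h610.KL3.t_COMP Pool.Agent.Run7.h929.KL3.t_UP)

/-- the choice of the level, for an arbitrary gain `a` -/
lemma select_a {Dp : ℕ → ℕ} {C : ℕ} {ν : ℝ} (hν : 0 < ν) (hC : 1 ≤ C) (hD1 : ∀ m, 1 ≤ Dp m)
    (hD : ∀ k, ∃ K, ∀ m, k * Dp m ≤ m + K) {a : ℝ} (ha : 0 < a) :
    ∀ᶠ l : ℕ in atTop, ∃ s : ℕ,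
      20 + 2 ^ s * (C * (s + 1) ^ 2 * Dp s) + 2 ^ s * (C * (s + 1) ^ 2) + 2 ^ s * C ≤ l ∧
      a * ((l:ℝ) / (Real.log l) ^ 3) ≤ ν * 2 ^ s := by
  have h1 := Pool.Agent.Run7.h216.KL3.select3 (ν := 9 * ν / a) (by positivity) hC hD1 hD
  filter_upwards [h1] with l hl
  obtain ⟨s, h2, h3⟩ := hl
  refine ⟨s, h2, ?_⟩
  have h4 := mul_le_mul_of_nonneg_left h3 (by positivity : 0 ≤ a / 9)
  calc a * ((l:ℝ) / (Real.log l) ^ 3) = a / 9 * (9 * ((l:ℝ) / (Real.log l) ^ 3)) := by ring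
    _ ≤ a / 9 * (9 * ν / a * 2 ^ s) := h4
    _ = ν * 2 ^ s := by field_simp

theorem finalE (C : ℝ) (hC0 : 0 ≤ C) : ∀ᶠ m : ℕ in atTop, ∃ N E P, KLev.Has N E P ∧ N ≤ m ∧
    ∀ x : ℝ, (m:ℝ) ≤ x → x ≤ 8 * m →
      C * m * Real.exp (C * (Real.log x / (Real.log (Real.log x)) ^ 3)) ≤ E := by
  obtain ⟨Dp, C₁, ν, hν, hC1, hD1, hD, hlev⟩ := lev
  have hlog : Tendsto (fun m : ℕ => Nat.log 2 m) atTop atTop := by
    rw [tendsto_atTop]
    intro b
    filter_upwards [eventually_ge_atTop (2 ^ b)] with m hm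
    exact Nat.le_log_of_pow_le (by norm_num) hm
  have hev := hlog.eventually ((select_a hν hC1 hD1 hD (a := 8 * C + 1) (by positivity)).and
    ((Pool.Agent.Run7.h216.KL3.big3 (Real.log (10506 / 2500 * (C + 1)))).and
      (eventually_ge_atTop 10)))
  filter_upwards [hev, eventually_ge_atTop 1] with m hm hm1
  obtain ⟨hsel, hbig, hl⟩ := hm
  set l := Nat.log 2 m with hldef
  have hlm : 2 ^ l ≤ m := Nat.pow_log_le_self 2 (by omega)
  have hlm2 : m < 2 ^ (l + 1) := Nat.lt_pow_succ_log_self (by norm_num) m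
  obtain ⟨s, hs1, hs2⟩ := hsel
  have hl0 : (10:ℝ) ≤ l := by exact_mod_cast (by omega : 10 ≤ l)
  have hL : 0 < Real.log l := Real.log_pos (by linarith)
  obtain ⟨N, E, P, h2, h3, h4⟩ := (hlev s).fill (Real.exp_nonneg _) 0 m (by
    refine le_trans (Nat.pow_le_pow_right (by norm_num) (le_trans (le_of_eq ?_) hs1)) hlm
    ring)
  refine ⟨N, E, P, h2, h3, ?_⟩
  intro x hx1 hx2
  have hx3 := Pool.Agent.Run7.h216.KL3.log_bounds3 hlm hlm2 (by omega) hx1 hx2
  set y : ℝ := l / (Real.log l) ^ 3 with hy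
  have hy0 : 0 ≤ y := by positivity
  have hm0 : (0:ℝ) ≤ m := Nat.cast_nonneg _
  have hx4 : C * (Real.log x / (Real.log (Real.log x)) ^ 3) ≤ 8 * C * y := by
    calc _ ≤ C * (8 * y) := mul_le_mul_of_nonneg_left hx3 hC0
      _ = _ := by ring
  have h6 : Real.exp ((8 * C + 1) * y) ≤ Real.exp (ν * 2 ^ s) ^ (0 + 1) := by
    rw [zero_add, pow_one]
    exact Real.exp_le_exp.mpr hs2
  have h7 : C + 1 ≤ 2500 / 10506 * Real.exp y := by
    have e1 : (0:ℝ) < 10506 / 2500 * (C + 1) := by positivity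
    have e2 := Real.exp_le_exp.mpr hbig
    rw [Real.exp_log e1] at e2
    linarith
  calc C * m * Real.exp (C * (Real.log x / (Real.log (Real.log x)) ^ 3))
      ≤ (C + 1) * m * Real.exp (8 * C * y) := by
        apply mul_le_mul _ (Real.exp_le_exp.mpr hx4) (Real.exp_nonneg _) (by positivity)
        exact mul_le_mul_of_nonneg_right (by linarith) hm0
    _ ≤ (2500 / 10506 * Real.exp y) * m * Real.exp (8 * C * y) := by
        apply mul_le_mul_of_nonneg_right _ (Real.exp_nonneg _)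
        exact mul_le_mul_of_nonneg_right h7 hm0
    _ = 2500 / 10506 * (Real.exp y * Real.exp (8 * C * y)) * m := by ring
    _ = 2500 / 10506 * Real.exp ((8 * C + 1) * y) * m := by
        rw [← Real.exp_add]
        congr 3
        ring
    _ ≤ 2500 / 10506 * Real.exp (ν * 2 ^ s) ^ (0 + 1) * m := by
        apply mul_le_mul_of_nonneg_right _ hm0
        exact mul_le_mul_of_nonneg_left h6 (by norm_num)
    _ ≤ E := h4

/-- the final estimate in the form `C * x ^ (1 + C' / (log log x) ^ 3)` -/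
theorem finalP (C C' : ℝ) : ∀ᶠ m : ℕ in atTop, ∃ N E P, KLev.Has N E P ∧ N ≤ m ∧
    ∀ x : ℝ, (m:ℝ) ≤ x → x ≤ 8 * m →
      C * x ^ (1 + C' / (Real.log (Real.log x)) ^ 3) ≤ E := by
  obtain ⟨K, hK⟩ : ∃ K, K = 8 * max C 0 + max C' 0 := ⟨_, rfl⟩
  have hm1 : 0 ≤ max C 0 := le_max_right _ _
  have hm2 : 0 ≤ max C' 0 := le_max_right _ _
  have hK0 : 0 ≤ K := by rw [hK]; positivity
  filter_upwards [finalE K hK0, eventually_ge_atTop 16] with m hm hm16
  obtain ⟨N, E, P, h1, h2, h3⟩ := hm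
  refine ⟨N, E, P, h1, h2, ?_⟩
  intro x hx1 hx2
  have hm0 : (16:ℝ) ≤ m := by exact_mod_cast hm16
  have hx : 0 < x := by linarith
  have hlx : 0 ≤ Real.log x := Real.log_nonneg (by linarith)
  have hlx1 : 1 ≤ Real.log x := by
    rw [Real.le_log_iff_exp_le hx]
    have := Real.exp_one_lt_d9
    linarith
  have hllx : 0 ≤ Real.log (Real.log x) := Real.log_nonneg hlx1
  have h4 := h3 x hx1 hx2
  have e : x ^ (1 + C' / (Real.log (Real.log x)) ^ 3) =
      x * Real.exp (C' * (Real.log x / (Real.log (Real.log x)) ^ 3)) := by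
    rw [Real.rpow_add hx, Real.rpow_one, Real.rpow_def_of_pos hx]
    congr 2
    ring
  rw [e]
  have hy0 : 0 ≤ Real.log x / (Real.log (Real.log x)) ^ 3 := by positivity
  have h5 : Real.exp (C' * (Real.log x / (Real.log (Real.log x)) ^ 3)) ≤
      Real.exp (K * (Real.log x / (Real.log (Real.log x)) ^ 3)) := by
    apply Real.exp_le_exp.mpr
    apply mul_le_mul_of_nonneg_right _ hy0
    have := le_max_left C' 0
    rw [hK]; linarith
  calc C * (x * Real.exp (C' * (Real.log x / (Real.log (Real.log x)) ^ 3)))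
      ≤ max C 0 * (x * Real.exp (C' * (Real.log x / (Real.log (Real.log x)) ^ 3))) :=
        mul_le_mul_of_nonneg_right (le_max_left _ _) (by positivity)
    _ ≤ max C 0 * ((8 * m) * Real.exp (K * (Real.log x / (Real.log (Real.log x)) ^ 3))) := by
        apply mul_le_mul_of_nonneg_left _ hm1
        exact mul_le_mul hx2 h5 (Real.exp_nonneg _) (by positivity)
    _ = 8 * max C 0 * m * Real.exp (K * (Real.log x / (Real.log (Real.log x)) ^ 3)) := by ring
    _ ≤ K * m * Real.exp (K * (Real.log x / (Real.log (Real.log x)) ^ 3)) := by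
        apply mul_le_mul_of_nonneg_right _ (Real.exp_nonneg _)
        apply mul_le_mul_of_nonneg_right _ (by linarith)
        rw [hK]; linarith
    _ ≤ E := h4

end Pool.Agent.Run7.h721.KL3
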