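import Pool.Agent.N35.HL.Up
import Pool.Agent.N35.HL.Iter

/-!
# Project KL3: interface

Goal: `n ^ (1 + 1 / (log log n) ^ 3)` for levels of line arrangements (the tree has
`n ^ (1 + 1 / (log log n) ^ 4)`, files `Pool/Agent/N35/HL`).  New idea: compose *different* inner
blocks, in decreasing order of size, keeping one common slope denominator `Rd = 2 ^ ρ` for the
whole chain.
-/

namespace Pool.Agent.Run7.h721.KL3

open Finset Filter Topology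
open Pool.Agent.N35.HL

/-- outer block whose slope differences are at least `D / T` and whose slopes are multiples of
`1 / Rd` (`D` is the parameter `Δ` of the inner block composed last) -/
def HasD (D N E P Q T L Rd : ℕ) : Prop :=
  1 ≤ P ∧ 1 ≤ E ∧ 1 ≤ D ∧ ∃ (A R H : Type) (_ : Fintype A) (_ : Fintype R) (_ : Fintype H)
    (O : Out A R H) (k K : ℕ),
    O.Good k K (1 / (51200 * D * P)) (1 / Q) (D / T) L Rd ∧
      Fintype.card A = N ∧ Fintype.card R = E ∧ Fintype.card H = P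

/-- the start: two crossing lines (from `start_good`; first show that `Out.Good` passes from `Rd`
to `Rd * m`) -/
def S_START : Prop := ∀ x : ℕ, HasD 1 2 1 1 4 2 1 (2 ^ (x + 1))

/-- one composition (adapt `HasO.comp` in `N35/HL/Has.lean`) -/
def S_COMP : Prop := ∀ {D N E P Q T L Rd g E₂ P₂ Rz Δ U M : ℕ}, HasD D N E P Q T L Rd →
    HasI g E₂ P₂ Rz Δ U M → 1 ≤ Q → 1 ≤ T →
    T * (2048000 * Rz * (50 * P) ^ 2) *
      (2 ^ 27 * (M * U * Rz ^ 2 * ((50 * P) * (50 * (50 * P * P₂))))) ≤ Rd →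
    HasD Δ (N * (g * Rz * 260100) * P ^ 2) (E * (125000 * E₂ * Rz * P ^ 2)) (50 * P * P₂)
      (Q * ((51200 * D * P) * (2 ^ 13 * (50 * P)) * (2 ^ 18 * U * Rz * (50 * (50 * P * P₂))) *
        (16 * M * Rz) * (2 * (51200 * D * P) * (500 * Rz * (50 * P)))))
      (T * (2048000 * Rz * (50 * P) ^ 2)) (3 * L) Rd

/-- from an outer block to an inner block (adapt `HasO.up` in `N35/HL/Up.lean`) -/
def S_UP : Prop := ∀ {D N E P Q T L Rd : ℕ}, HasD D N E P Q T L Rd → 1 ≤ Q → 1 ≤ L →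
    ∃ Δ' E', HasI N E' P (2 * L * Rd) Δ' (4 * Rd * L ^ 2) (12 * Q) ∧
      E ≤ E' * (Nat.log 2 (12 * Rd) + 1)

/-- a chain of compositions with different inner blocks -/
def S_CHAIN : Prop := ∀ (q : ℕ) (t r w b : ℕ → ℕ) (β : ℕ → ℝ) (B ρ : ℕ),
    (∀ i < q, Lv (t i) (r i) (w i) (b i) (β i)) → (∀ i < q, 0 ≤ β i) →
    ∑ i ∈ range q, b i ≤ B → 1 ≤ ρ →
    (∀ i < q, ∑ j ∈ range (i + 1), r j + w i + 2 * r i + (i + 1) * (33 + 2 * B) +
      (40 + 2 * B) ≤ ρ) →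
    Lv (1 + ∑ i ∈ range q, (t i + r i) + q * (18 + 2 * B)) (ρ + 1 + 2 * q)
      (ρ + 8 + ∑ i ∈ range q, (w i + 5 * r i) + q * (100 + 6 * B)) (B + 6)
      (2500 / 10506 * (∏ i ∈ range q, β i) / ((ρ : ℝ) + 4))

/-- the blocks of all levels -/
def S_LEV : Prop := ∃ (Dp : ℕ → ℕ) (C : ℕ) (ν : ℝ), 0 < ν ∧ 1 ≤ C ∧ (∀ m, 1 ≤ Dp m) ∧
    (∀ k, ∃ K, ∀ m, k * Dp m ≤ m + K) ∧
    ∀ m, Lv (2 ^ m * (C * (m + 1) ^ 2 * Dp m)) (2 ^ m * (C * (m + 1) ^ 2))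
      (2 ^ m * (C * (m + 1) ^ 3)) (2 ^ m * C) (Real.exp (ν * 2 ^ m))

/-- the final estimate (cf. `finalP` in `N35/HL/Fin.lean`) -/
def S_FIN : Prop := ∀ C : ℝ, ∀ᶠ m : ℕ in atTop, ∃ N E P, KLev.Has N E P ∧ N ≤ m ∧
    ∀ x : ℝ, (m:ℝ) ≤ x → x ≤ 8 * m →
      C * x ^ (1 + 1 / (Real.log (Real.log x)) ^ 3) ≤ E

end Pool.Agent.Run7.h721.KL3
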