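import Pool.Agent.Run7.h721.KL3.Depth

/-!
# Project KL3: inequalities between the parameters
-/

namespace Pool.Agent.Run7.h721.KL3

open Finset

lemma two_pow_ge (u : ℕ) (hu : 5 ≤ u) : 3 * u + 11 ≤ 2 ^ u := by
  induction u, hu using Nat.le_induction with
  | base => norm_num
  | succ u hu ih => rw [pow_succ]; omega

lemma log_facts {m : ℕ} (hm : 32 ≤ m) : 5 ≤ Nat.log 2 m ∧ 3 * Nat.log 2 m + 11 ≤ m := by
  have h1 : 5 ≤ Nat.log 2 m := Nat.le_log_of_pow_le (by norm_num) (by omega)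
  have h2 : 2 ^ Nat.log 2 m ≤ m := Nat.pow_log_le_self 2 (by omega)
  exact ⟨h1, (two_pow_ge _ h1).trans h2⟩

/-- hat of the resolution -/
def hatR (c x : ℕ) : ℕ := c * (x + 1) ^ 2
/-- hat of the margins -/
def hatW (c x : ℕ) : ℕ := 8 * c * (x + 1) ^ 3
/-- hat of the number of lines -/
def hatT (c x : ℕ) : ℕ := 2 * c * (x + 1) ^ 2 * Dp x

lemma hatR_mono {c x y : ℕ} (h : x ≤ y) : hatR c x ≤ hatR c y :=
  Nat.mul_le_mul_left _ (Nat.pow_le_pow_left (by omega) 2)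

lemma hatW_mono {c x y : ℕ} (h : x ≤ y) : hatW c x ≤ hatW c y :=
  Nat.mul_le_mul_left _ (Nat.pow_le_pow_left (by omega) 3)

lemma hatT_mono {c x y : ℕ} (h : x ≤ y) : hatT c x ≤ hatT c y :=
  Nat.mul_le_mul (Nat.mul_le_mul_left _ (Nat.pow_le_pow_left (by omega) 2)) (Dp_mono _ _ h)

/-- compensation -/
lemma comp_ineq {c s n m : ℕ} (hs : s ≤ m) (hn : 16 * m ≤ n) (hm : 2 ≤ m) :
    hatW c s + 2 * hatR c s ≤ n * hatR c s := by
  unfold hatW hatR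
  have h1 : 8 * (s + 1) + 2 ≤ n := by omega
  calc 8 * c * (s + 1) ^ 3 + 2 * (c * (s + 1) ^ 2) = (8 * (s + 1) + 2) * (c * (s + 1) ^ 2) := by ring
    _ ≤ n * (c * (s + 1) ^ 2) := Nat.mul_le_mul_right _ h1

section

variable {c Bh m u s q Z B : ℕ} (hc : 64 * (6 * Bh + 111) ≤ c) (hu : 5 ≤ u)
  (hs : s + u + 6 = m) (hq1 : 1 ≤ q) (hq : q ≤ 64 * m * (u + 3)) (hZ : 1 ≤ Z) (hB : B ≤ Bh * Z)

include hc hq

lemma q_bd (d : ℕ) (hd : d ≤ 6 * Bh + 111) : q * d ≤ c * (m * (u + 3)) := by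
  calc q * d ≤ (64 * m * (u + 3)) * (6 * Bh + 111) := Nat.mul_le_mul hq hd
    _ = (64 * (6 * Bh + 111)) * (m * (u + 3)) := by ring
    _ ≤ c * (m * (u + 3)) := Nat.mul_le_mul_right _ hc

include hs

omit hc hq in
lemma sq_gap : (s + 1) ^ 2 + m * (u + 3) + m ≤ (m + 1) ^ 2 := by
  subst hs
  nlinarith [Nat.zero_le s, Nat.zero_le u]

include hq1 hZ hB

/-- the new resolution -/
lemma ineq_r : (Z * hatR c s + q * (33 + 2 * B) + (40 + 2 * B)) + 1 + 2 * q ≤ Z * hatR c m := by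
  have h1 : q * (33 + 2 * B) + (40 + 2 * B) + 1 + 2 * q ≤ Z * (q * (76 + 4 * Bh)) := by
    have h2 : q * (33 + 2 * B) + (40 + 2 * B) + 1 + 2 * q ≤ q * (76 + 4 * B) := by
      have : B ≤ q * B := Nat.le_mul_of_pos_left _ hq1
      nlinarith
    refine h2.trans ?_
    calc q * (76 + 4 * B) ≤ q * (76 * Z + 4 * (Bh * Z)) := by
          apply Nat.mul_le_mul_left; omega
      _ = Z * (q * (76 + 4 * Bh)) := by ring
  have h3 := q_bd hc hq (76 + 4 * Bh) (by omega)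
  have h4 := sq_gap hs
  have h5 : Z * (q * (76 + 4 * Bh)) ≤ Z * (c * (m * (u + 3))) := Nat.mul_le_mul_left _ h3
  have h6 : Z * (c * ((s + 1) ^ 2 + m * (u + 3))) ≤ Z * (c * (m + 1) ^ 2) :=
    Nat.mul_le_mul_left _ (Nat.mul_le_mul_left _ (by omega))
  unfold hatR
  have e : Z * (c * ((s + 1) ^ 2 + m * (u + 3))) = Z * (c * (s + 1) ^ 2) + Z * (c * (m * (u + 3))) := by
    ring
  rw [e] at h6
  omega

/-- the new number of lines -/
lemma ineq_t {F : ℕ} (hF : F ≤ Z) (hD : Dp m = Dp s + 1) {S : ℕ}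
    (hS : S ≤ (hatT c s + hatR c s) * F) :
    1 + S + q * (18 + 2 * B) ≤ Z * hatT c m := by
  have h1 : 1 + q * (18 + 2 * B) ≤ Z * (q * (19 + 2 * Bh)) := by
    calc 1 + q * (18 + 2 * B) ≤ q * (19 + 2 * B) := by nlinarith
      _ ≤ q * (19 * Z + 2 * (Bh * Z)) := by
          apply Nat.mul_le_mul_left; omega
      _ = Z * (q * (19 + 2 * Bh)) := by ring
  have h3 := q_bd hc hq (19 + 2 * Bh) (by omega)
  have h5 : Z * (q * (19 + 2 * Bh)) ≤ Z * (c * (m * (u + 3))) := Nat.mul_le_mul_left _ h3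
  have h6 : S ≤ Z * (hatT c s + hatR c s) := by
    refine hS.trans ?_
    rw [mul_comm]; exact Nat.mul_le_mul_right _ hF
  have h4 := sq_gap hs
  have h7 : hatT c s + hatR c s + c * (m * (u + 3)) ≤ hatT c m := by
    unfold hatT hatR
    rw [hD]
    have a1 : 2 * c * (s + 1) ^ 2 * Dp s ≤ 2 * c * (m + 1) ^ 2 * Dp s := by
      apply Nat.mul_le_mul_right
      exact Nat.mul_le_mul_left _ (Nat.pow_le_pow_left (by omega) 2)
    have a2 : c * ((s + 1) ^ 2 + m * (u + 3)) ≤ c * (2 * (m + 1) ^ 2) :=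
      Nat.mul_le_mul_left _ (by omega)
    have e1 : 2 * c * (m + 1) ^ 2 * (Dp s + 1) = 2 * c * (m + 1) ^ 2 * Dp s + c * (2 * (m + 1) ^ 2) := by
      ring
    have e2 : c * ((s + 1) ^ 2 + m * (u + 3)) = c * (s + 1) ^ 2 + c * (m * (u + 3)) := by ring
    rw [e2] at a2
    rw [e1]
    omega
  have h8 := Nat.mul_le_mul_left Z h7
  have e3 : Z * (hatT c s + hatR c s + c * (m * (u + 3))) =
      Z * (hatT c s + hatR c s) + Z * (c * (m * (u + 3))) := by ring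
  rw [e3] at h8
  omega

/-- the new margins -/
lemma ineq_w {F : ℕ} (hF : F ≤ Z) {S : ℕ} (hS : S ≤ (hatW c s + 5 * hatR c s) * F) :
    (Z * hatR c s + q * (33 + 2 * B) + (40 + 2 * B)) + 8 + S + q * (100 + 6 * B) ≤
      Z * hatW c m := by
  have h0 := ineq_r hc hs hq1 hq hZ hB
  have h1 : 8 + q * (100 + 6 * B) ≤ Z * (q * (108 + 6 * Bh)) := by
    calc 8 + q * (100 + 6 * B) ≤ q * (108 + 6 * B) := by nlinarith
      _ ≤ q * (108 * Z + 6 * (Bh * Z)) := by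
          apply Nat.mul_le_mul_left; omega
      _ = Z * (q * (108 + 6 * Bh)) := by ring
  have h3 := q_bd hc hq (108 + 6 * Bh) (by omega)
  have h5 : Z * (q * (108 + 6 * Bh)) ≤ Z * (c * (m * (u + 3))) := Nat.mul_le_mul_left _ h3
  have h6 : S ≤ Z * (hatW c s + 5 * hatR c s) := by
    refine hS.trans ?_
    rw [mul_comm]; exact Nat.mul_le_mul_right _ hF
  have h4 := sq_gap hs
  have h7 : hatR c m + (hatW c s + 5 * hatR c s) + c * (m * (u + 3)) ≤ hatW c m := by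
    unfold hatW hatR
    have a1 : (m + 1) ^ 2 + 8 * (s + 1) ^ 3 + 5 * (s + 1) ^ 2 + m * (u + 3) ≤ 8 * (m + 1) ^ 3 := by
      have b1 : (s + 1) ^ 3 ≤ (s + 1) * (m + 1) ^ 2 := by
        calc (s + 1) ^ 3 = (s + 1) * (s + 1) ^ 2 := by ring
          _ ≤ (s + 1) * (m + 1) ^ 2 := Nat.mul_le_mul_left _ (Nat.pow_le_pow_left (by omega) 2)
      have b2 : (s + 1) ^ 2 ≤ (m + 1) ^ 2 := Nat.pow_le_pow_left (by omega) 2
      have b3 : m + 1 = (s + 1) + (u + 6) := by omega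
      have b4 : 8 * (m + 1) ^ 3 = 8 * ((s + 1) * (m + 1) ^ 2) + 8 * ((u + 6) * (m + 1) ^ 2) := by
        calc 8 * (m + 1) ^ 3 = 8 * ((m + 1) * (m + 1) ^ 2) := by ring
          _ = 8 * (((s + 1) + (u + 6)) * (m + 1) ^ 2) := by rw [← b3]
          _ = _ := by ring
      have b5 : 1 * (m + 1) ^ 2 ≤ (u + 6) * (m + 1) ^ 2 := Nat.mul_le_mul_right _ (by omega)
      omega
    have a2 := Nat.mul_le_mul_left c a1
    have e1 : c * ((m + 1) ^ 2 + 8 * (s + 1) ^ 3 + 5 * (s + 1) ^ 2 + m * (u + 3)) =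
      c * (m + 1) ^ 2 + (8 * c * (s + 1) ^ 3 + 5 * (c * (s + 1) ^ 2)) + c * (m * (u + 3)) := by ring
    have e2 : c * (8 * (m + 1) ^ 3) = 8 * c * (m + 1) ^ 3 := by ring
    rw [e1, e2] at a2
    exact a2
  have h8 := Nat.mul_le_mul_left Z h7
  have e3 : Z * (hatR c m + (hatW c s + 5 * hatR c s) + c * (m * (u + 3))) =
      Z * hatR c m + Z * (hatW c s + 5 * hatR c s) + Z * (c * (m * (u + 3))) := by ring
  rw [e3] at h8
  omega

end

/-- the gain survives -/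
lemma ineq_gain {m u s K : ℕ} {ν L F : ℝ} (hm : 32 ≤ m) (hu : 5 ≤ u) (hs : s + u + 6 = m)
    (hum : m < 2 ^ (u + 1)) (hK : K = 2 * u + 6) (hν : 0 < ν)
    (h : ((m:ℝ) + 1) ^ 2 * (2 + 3 * m + L) ≤ 10 * ν * 2 ^ m)
    (hF : F = 2 ^ m - 2 ^ m / 2 ^ K) :
    ν * 2 ^ m * (1 + 1 / ((m:ℝ) + 1)) + (2 + 3 * m + L) ≤ ν * (1 + 1 / ((s:ℝ) + 1)) * F := by
  have hm0 : (32:ℝ) ≤ m := by exact_mod_cast hm
  have hs0 : (0:ℝ) ≤ s := Nat.cast_nonneg _
  have hu0 : (5:ℝ) ≤ u := by exact_mod_cast hu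
  have hsm : (s:ℝ) + u + 6 = m := by exact_mod_cast hs
  set Z : ℝ := 2 ^ m with hZ
  have hZ0 : 0 < Z := by positivity
  set X : ℝ := (m:ℝ) + 1 with hX
  set y : ℝ := (s:ℝ) + 1 with hy
  have hX0 : 0 < X := by positivity
  have hy0 : 0 < y := by positivity
  have hy1 : 1 ≤ y := by linarith
  have hXy : X = y + u + 6 := by linarith
  -- the number of groups
  have hK2 : 8 * X ^ 2 ≤ 2 ^ K := by
    have h1 : (m:ℝ) ≤ 2 ^ (u + 1) := by exact_mod_cast hum.le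
    have h2 : (m:ℝ) ^ 2 ≤ (2 ^ (u + 1)) ^ 2 := pow_le_pow_left₀ (by linarith) h1 2
    have h3 : (2:ℝ) ^ K = 16 * (2 ^ (u + 1)) ^ 2 := by
      rw [hK, ← pow_mul]
      rw [show (16:ℝ) = 2 ^ 4 by norm_num, ← pow_add]
      congr 1; ring
    rw [h3]
    nlinarith
  have hK0 : (0:ℝ) < 2 ^ K := by positivity
  have h1 : Z / 2 ^ K ≤ Z / (8 * X ^ 2) := by
    apply div_le_div_of_nonneg_left hZ0.le (by positivity) hK2
  have h2 : (2 + 3 * m + L) ≤ 10 * ν * Z / X ^ 2 := by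
    rw [le_div_iff₀ (by positivity)]
    linarith
  have h3 : 1 + 1 / y ≤ 2 := by
    have : 1 / y ≤ 1 := by rw [div_le_one hy0]; exact hy1
    linarith
  have h4 : 0 ≤ 1 / y := by positivity
  have h5 : 11 / X ^ 2 ≤ 1 / y - 1 / X := by
    have e : 1 / y - 1 / X = (u + 6) / (X * y) := by
      field_simp; linarith
    rw [e, div_le_div_iff₀ (by positivity) (by positivity)]
    have h6 : 11 * (X * y) ≤ (u + 6) * (X * X) := by
      apply mul_le_mul (by linarith) _ (by positivity) (by linarith)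
      exact mul_le_mul_of_nonneg_left (by linarith) hX0.le
    calc 11 * (X * y) ≤ (u + 6) * (X * X) := h6
      _ = (u + 6) * X ^ 2 := by ring
  have h7 : (1 + 1 / y) * (Z / 2 ^ K) ≤ 2 * (Z / (8 * X ^ 2)) :=
    mul_le_mul h3 h1 (by positivity) (by norm_num)
  have h8 : Z * (1 + 1 / X) + 10 * Z / X ^ 2 ≤ (1 + 1 / y) * F := by
    rw [hF]
    have e1 : (1 + 1 / y) * (Z - Z / 2 ^ K) = Z * (1 + 1 / y) - (1 + 1 / y) * (Z / 2 ^ K) := by ring
    have h9 := mul_le_mul_of_nonneg_left h5 hZ0.le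
    have e2 : Z * (11 / X ^ 2) = 10 * Z / X ^ 2 + Z / X ^ 2 := by ring
    have e3 : 2 * (Z / (8 * X ^ 2)) = (Z / X ^ 2) / 4 := by
      field_simp; norm_num
    have e4 : 0 ≤ Z / X ^ 2 := by positivity
    rw [e1]
    have e5 : Z * (1 / y - 1 / X) = Z * (1 + 1 / y) - Z * (1 + 1 / X) := by ring
    rw [e2, e5] at h9
    rw [e3] at h7
    linarith
  have h9 := mul_le_mul_of_nonneg_left h8 hν.le
  have e1 : ν * (Z * (1 + 1 / X) + 10 * Z / X ^ 2) = ν * Z * (1 + 1 / X) + 10 * ν * Z / X ^ 2 := by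
    ring
  rw [e1] at h9
  calc ν * Z * (1 + 1 / X) + (2 + 3 * m + L) ≤ ν * Z * (1 + 1 / X) + 10 * ν * Z / X ^ 2 := by
        linarith
    _ ≤ ν * ((1 + 1 / y) * F) := h9
    _ = _ := by ring

/-- the doubling of the condition on `ν` -/
lemma nu_ok {ν L : ℝ} (hν : 0 < ν) (hL : 0 ≤ L)
    (h : ((33:ℝ)) ^ 2 * (98 + L) ≤ 10 * ν * 2 ^ 32) (m : ℕ) (hm : 32 ≤ m) :
    ((m:ℝ) + 1) ^ 2 * (2 + 3 * m + L) ≤ 10 * ν * 2 ^ m := by
  induction m, hm using Nat.le_induction with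
  | base => refine le_trans (le_of_eq ?_) h; norm_num
  | succ m hm ih =>
    have hm0 : (32:ℝ) ≤ m := by exact_mod_cast hm
    have e0 : (2:ℝ) ^ (m + 1) = 2 * 2 ^ m := by ring
    rw [e0]
    have h1 : (((m + 1 : ℕ):ℝ) + 1) ^ 2 * (2 + 3 * ((m + 1 : ℕ):ℝ) + L) ≤
        2 * (((m:ℝ) + 1) ^ 2 * (2 + 3 * m + L)) := by
      push_cast
      have a1 : ((m:ℝ) + 1 + 1) ^ 2 ≤ 4 / 3 * ((m:ℝ) + 1) ^ 2 := by nlinarith
      have a2 : 2 + 3 * ((m:ℝ) + 1) + L ≤ 4 / 3 * (2 + 3 * m + L) := by linarith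
      calc ((m:ℝ) + 1 + 1) ^ 2 * (2 + 3 * ((m:ℝ) + 1) + L)
          ≤ (4 / 3 * ((m:ℝ) + 1) ^ 2) * (4 / 3 * (2 + 3 * m + L)) :=
            mul_le_mul a1 a2 (by positivity) (by positivity)
        _ = 16 / 9 * (((m:ℝ) + 1) ^ 2 * (2 + 3 * m + L)) := by ring
        _ ≤ 2 * (((m:ℝ) + 1) ^ 2 * (2 + 3 * m + L)) := by
            apply mul_le_mul_of_nonneg_right (by norm_num) (by positivity)
    linarith

end Pool.Agent.Run7.h721.KL3
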