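import Pool.Agent.Run7.h721.KL3.Iface
import Pool.Agent.Run7.h721.KL3.Num
import Pool.Agent.N35.HL.Seq

/-!
# Project KL3: the blocks of all levels
-/

set_option linter.unusedVariables false

namespace Pool.Agent.Run7.h721.KL3

open Finset Filter Topology
open Pool.Agent.N35.HL

/-- exponent of the ratio -/
noncomputable def hatY (ν : ℝ) (x : ℕ) : ℝ := ν * 2 ^ x * (1 + 1 / ((x:ℝ) + 1))

/-- the block of level `x` -/
def Blk (c Bh : ℕ) (ν : ℝ) (x : ℕ) : Prop :=
  Lv (2 ^ x * hatT c x) (2 ^ x * hatR c x) (2 ^ x * hatW c x) (Bh * 2 ^ x)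
    (Real.exp (hatY ν x))

theorem lev_step (hC : S_CHAIN) {c Bh : ℕ} {ν : ℝ} (hc : 64 * (6 * Bh + 111) ≤ c)
    (hBh : 1 ≤ Bh) (hν : 0 < ν)
    (hνc : ∀ m : ℕ, 32 ≤ m → ((m:ℝ) + 1) ^ 2 * (2 + 3 * m + Real.log (5 * c)) ≤ 10 * ν * 2 ^ m)
    {m : ℕ} (hm : 32 ≤ m) (ih : ∀ x < m, Blk c Bh ν x) : Blk c Bh ν m := by
  obtain ⟨hu5, hu3⟩ := log_facts hm
  have hum1 : 2 ^ Nat.log 2 m ≤ m := Nat.pow_log_le_self 2 (by omega)
  have hum2 : m < 2 ^ (Nat.log 2 m + 1) := Nat.lt_pow_succ_log_self (by norm_num) m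
  have hD : Dp m = Dp (m - Nat.log 2 m - 6) + 1 := Dp_big hm
  set u := Nat.log 2 m with hu
  obtain ⟨s, hs⟩ : ∃ s, s = m - u - 6 := ⟨_, rfl⟩
  rw [← hs] at hD
  have hsm : s + u + 6 = m := by omega
  obtain ⟨n, hn⟩ : ∃ n, n = 2 ^ (u + 5) := ⟨_, rfl⟩
  have hn1 : 1 ≤ n := by rw [hn]; exact Nat.one_le_two_pow
  obtain ⟨K, hK⟩ : ∃ K, K = 2 * u + 6 := ⟨_, rfl⟩
  obtain ⟨q, hq⟩ : ∃ q, q = n * K := ⟨_, rfl⟩
  have hn16 : 16 * m ≤ n := by
    rw [hn]
    calc 16 * m ≤ 16 * 2 ^ (u + 1) := by omega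
      _ = 2 ^ (u + 5) := by ring
  have hq1 : 1 ≤ q := by rw [hq]; exact Nat.mul_pos hn1 (by omega)
  have hq2 : q ≤ 64 * m * (u + 3) := by
    rw [hq, hn, hK]
    calc 2 ^ (u + 5) * (2 * u + 6) = 64 * 2 ^ u * (u + 3) := by ring
      _ ≤ 64 * m * (u + 3) := Nat.mul_le_mul_right _ (Nat.mul_le_mul_left _ hum1)
  have hc1 : 1 ≤ c := by omega
  -- the geometric sums
  obtain ⟨F, hF⟩ : ∃ F, F = ∑ i ∈ range q, 2 ^ (s - i / n) := ⟨_, rfl⟩
  obtain ⟨Z, hZ⟩ : ∃ Z, Z = 2 ^ m := ⟨_, rfl⟩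
  have hZ1 : 1 ≤ Z := by rw [hZ]; exact Nat.one_le_two_pow
  have hnZ : n * 2 ^ (s + 1) = Z := by
    rw [hn, hZ, ← pow_add]; congr 1; omega
  have hKs : K ≤ s + 1 := by omega
  have hgeo : F + n * 2 ^ (s + 1 - K) = Z := by
    rw [hF, hq, ← hnZ]; exact geo n s hn1 K hKs
  have hFZ : F ≤ Z := by omega
  obtain ⟨B, hB⟩ : ∃ B, B = Bh * F := ⟨_, rfl⟩
  have hBZ : B ≤ Bh * Z := by rw [hB]; exact Nat.mul_le_mul_left _ hFZ
  obtain ⟨ρ, hρ⟩ : ∃ ρ, ρ = Z * hatR c s + q * (33 + 2 * B) + (40 + 2 * B) := ⟨_, rfl⟩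
  have hsi : ∀ i, s - i / n ≤ s := fun i => Nat.sub_le _ _
  have hlt : ∀ i, s - i / n < m := fun i => by have := hsi i; omega
  -- the chain
  have h := hC q (fun i => 2 ^ (s - i / n) * hatT c (s - i / n))
    (fun i => 2 ^ (s - i / n) * hatR c (s - i / n))
    (fun i => 2 ^ (s - i / n) * hatW c (s - i / n)) (fun i => Bh * 2 ^ (s - i / n))
    (fun i => Real.exp (hatY ν (s - i / n))) B ρ (fun i _ => ih _ (hlt i))
    (fun i _ => Real.exp_nonneg _) (by rw [hB, hF, Finset.mul_sum])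
    (by rw [hρ]; omega)
    (by
      intro i hi
      have a1 : ∑ j ∈ range (i + 1), 2 ^ (s - j / n) * hatR c (s - j / n) ≤
          (∑ j ∈ range (i + 1), 2 ^ (s - j / n)) * hatR c s := by
        rw [Finset.sum_mul]
        exact Finset.sum_le_sum fun j _ => Nat.mul_le_mul_left _ (hatR_mono (hsi j))
      have a2 : 2 ^ (s - i / n) * hatW c (s - i / n) + 2 * (2 ^ (s - i / n) * hatR c (s - i / n)) ≤
          n * 2 ^ (s - i / n) * hatR c s := by
        calc 2 ^ (s - i / n) * hatW c (s - i / n) + 2 * (2 ^ (s - i / n) * hatR c (s - i / n))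
            ≤ 2 ^ (s - i / n) * hatW c s + 2 * (2 ^ (s - i / n) * hatR c s) := by
              apply Nat.add_le_add
              · exact Nat.mul_le_mul_left _ (hatW_mono (hsi i))
              · exact Nat.mul_le_mul_left _ (Nat.mul_le_mul_left _ (hatR_mono (hsi i)))
          _ = 2 ^ (s - i / n) * (hatW c s + 2 * hatR c s) := by ring
          _ ≤ 2 ^ (s - i / n) * (n * hatR c s) :=
              Nat.mul_le_mul_left _ (comp_ineq (by omega : s ≤ m) hn16 (by omega))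
          _ = _ := by ring
      have a3 := geo_le n s i K hn1 hKs (by rw [← hq]; exact hi)
      rw [hnZ] at a3
      have a4 := Nat.mul_le_mul_right (hatR c s) a3
      rw [Nat.add_mul] at a4
      have a5 : (i + 1) * (33 + 2 * B) ≤ q * (33 + 2 * B) := Nat.mul_le_mul_right _ (by omega)
      rw [hρ]
      omega)
  have hr := ineq_r (c := c) (Bh := Bh) (m := m) (u := u) (s := s) (q := q) (Z := Z) (B := B)
    hc hsm hq1 hq2 hZ1 hBZ
  rw [← hρ] at hr
  refine h.mono ?_ ?_ ?_ ?_ ?_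
  · -- number of lines
    rw [← hZ]
    apply ineq_t (c := c) (Bh := Bh) (m := m) (u := u) (s := s) (q := q) (Z := Z) (B := B)
      hc hsm hq1 hq2 hZ1 hBZ hFZ hD
    rw [hF, Finset.mul_sum]
    apply Finset.sum_le_sum
    intro i _
    calc 2 ^ (s - i / n) * hatT c (s - i / n) + 2 ^ (s - i / n) * hatR c (s - i / n)
        ≤ 2 ^ (s - i / n) * hatT c s + 2 ^ (s - i / n) * hatR c s :=
          Nat.add_le_add (Nat.mul_le_mul_left _ (hatT_mono (hsi i)))
            (Nat.mul_le_mul_left _ (hatR_mono (hsi i)))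
      _ = _ := by ring
  · rw [← hZ]; exact hr
  · rw [← hZ, hρ]
    apply ineq_w (c := c) (Bh := Bh) (m := m) (u := u) (s := s) (q := q) (Z := Z) (B := B)
      hc hsm hq1 hq2 hZ1 hBZ hFZ
    rw [hF, Finset.mul_sum]
    apply Finset.sum_le_sum
    intro i _
    calc 2 ^ (s - i / n) * hatW c (s - i / n) + 5 * (2 ^ (s - i / n) * hatR c (s - i / n))
        ≤ 2 ^ (s - i / n) * hatW c s + 5 * (2 ^ (s - i / n) * hatR c s) :=
          Nat.add_le_add (Nat.mul_le_mul_left _ (hatW_mono (hsi i)))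
            (Nat.mul_le_mul_left _ (Nat.mul_le_mul_left _ (hatR_mono (hsi i))))
      _ = _ := by ring
  · rw [← hZ, hB]
    have a1 : 6 ≤ n * 2 ^ (s + 1 - K) := by
      calc 6 ≤ 16 * m * 1 := by omega
        _ ≤ n * 2 ^ (s + 1 - K) := Nat.mul_le_mul hn16 Nat.one_le_two_pow
    calc Bh * F + 6 ≤ Bh * F + Bh * (n * 2 ^ (s + 1 - K)) := by
          apply Nat.add_le_add_left
          calc 6 ≤ 1 * (n * 2 ^ (s + 1 - K)) := by omega
            _ ≤ _ := Nat.mul_le_mul_right _ hBh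
      _ = Bh * (F + n * 2 ^ (s + 1 - K)) := by ring
      _ = Bh * Z := by rw [hgeo]
  · -- the ratios
    have hZr : ((Z:ℕ):ℝ) = 2 ^ m := by rw [hZ]; push_cast; rfl
    have hFr : (F:ℝ) = 2 ^ m - 2 ^ m / 2 ^ K := by
      have e1 : (F:ℝ) + n * 2 ^ (s + 1 - K) = Z := by exact_mod_cast hgeo
      have e2 : (n:ℝ) * 2 ^ (s + 1 - K) = 2 ^ m / 2 ^ K := by
        rw [eq_div_iff (by positivity), mul_assoc, ← pow_add, hn]
        push_cast
        rw [← pow_add]
        congr 1; omega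
      rw [hZr, e2] at e1
      linarith
    have hg := ineq_gain (m := m) (u := u) (s := s) (K := K) (ν := ν) (L := Real.log (5 * c))
      (F := F) hm hu5 hsm hum2 hK hν (hνc m hm) hFr
    have hprod : Real.exp (ν * (1 + 1 / ((s:ℝ) + 1)) * F) ≤
        ∏ i ∈ range q, Real.exp (hatY ν (s - i / n)) := by
      rw [← Real.exp_sum]
      apply Real.exp_le_exp.mpr
      have e1 : ν * (1 + 1 / ((s:ℝ) + 1)) * F =
          ∑ i ∈ range q, ν * (1 + 1 / ((s:ℝ) + 1)) * 2 ^ (s - i / n) := by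
        rw [← Finset.mul_sum, hF]
        push_cast; rfl
      rw [e1]
      apply Finset.sum_le_sum
      intro i _
      unfold hatY
      have e2 : (0:ℝ) < 2 ^ (s - i / n) := by positivity
      have e3 : ((s - i / n : ℕ):ℝ) ≤ s := by exact_mod_cast hsi i
      have e4 : 1 / ((s:ℝ) + 1) ≤ 1 / (((s - i / n : ℕ):ℝ) + 1) :=
        one_div_le_one_div_of_le (by positivity) (by linarith)
      calc ν * (1 + 1 / ((s:ℝ) + 1)) * 2 ^ (s - i / n)
          = ν * 2 ^ (s - i / n) * (1 + 1 / ((s:ℝ) + 1)) := by ring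
        _ ≤ ν * 2 ^ (s - i / n) * (1 + 1 / (((s - i / n : ℕ):ℝ) + 1)) :=
            mul_le_mul_of_nonneg_left (by linarith) (by positivity)
    have hc0 : (0:ℝ) < c := by exact_mod_cast hc1
    have hm0 : (32:ℝ) ≤ m := by exact_mod_cast hm
    -- the loss
    have hloss : 10506 / 2500 * ((ρ:ℝ) + 4) ≤ Real.exp (2 + 3 * m + Real.log (5 * c)) := by
      have b1 : (ρ:ℝ) + 4 ≤ 5 * c * (2 ^ m * ((m:ℝ) + 1) ^ 2) := by
        have b2 : ρ + 4 ≤ 5 * (Z * hatR c m) := by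
          have b3 : 1 * 1 ≤ Z * hatR c m := by
            apply Nat.mul_le_mul hZ1
            unfold hatR
            exact Nat.mul_pos hc1 (by positivity)
          omega
        have b4 : ((ρ + 4 : ℕ):ℝ) ≤ ((5 * (Z * hatR c m) : ℕ):ℝ) := by exact_mod_cast b2
        unfold hatR at b4
        push_cast at b4
        rw [hZr] at b4
        calc (ρ:ℝ) + 4 ≤ 5 * (2 ^ m * (c * ((m:ℝ) + 1) ^ 2)) := b4
          _ = _ := by ring
      have b5 : (10506:ℝ) / 2500 ≤ Real.exp 2 := by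
        have e := Real.exp_one_gt_d9
        have e2 : Real.exp 2 = Real.exp 1 * Real.exp 1 := by rw [← Real.exp_add]; norm_num
        rw [e2]
        nlinarith
      have b6 : (2:ℝ) ^ m ≤ Real.exp m := by
        have e : Real.exp (m:ℝ) = Real.exp 1 ^ m := by
          rw [← Real.exp_nat_mul]; simp
        rw [e]
        exact pow_le_pow_left₀ (by norm_num) (by linarith [Real.exp_one_gt_d9]) m
      have b7 : ((m:ℝ) + 1) ^ 2 ≤ Real.exp (2 * m) := by
        have e : Real.exp (2 * (m:ℝ)) = Real.exp m ^ 2 := by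
          rw [← Real.exp_nat_mul]; norm_num
        rw [e]
        exact pow_le_pow_left₀ (by positivity) (Real.add_one_le_exp _) 2
      have b8 : Real.exp (2 + 3 * m + Real.log (5 * c)) =
          Real.exp 2 * ((5 * c) * (Real.exp m * Real.exp (2 * m))) := by
        rw [show (2:ℝ) + 3 * m + Real.log (5 * c) = 2 + (Real.log (5 * c) + (m + 2 * m)) by ring,
          Real.exp_add, Real.exp_add, Real.exp_add, Real.exp_log (by positivity)]
      rw [b8]
      calc 10506 / 2500 * ((ρ:ℝ) + 4) ≤ Real.exp 2 * (5 * c * (2 ^ m * ((m:ℝ) + 1) ^ 2)) :=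
            mul_le_mul b5 b1 (by positivity) (Real.exp_nonneg _)
        _ ≤ _ := by
            apply mul_le_mul_of_nonneg_left _ (Real.exp_nonneg _)
            apply mul_le_mul_of_nonneg_left _ (by positivity)
            exact mul_le_mul b6 b7 (by positivity) (Real.exp_nonneg _)
    have hρ0 : (0:ℝ) < (ρ:ℝ) + 4 := by positivity
    rw [le_div_iff₀ hρ0]
    have h1 : Real.exp (hatY ν m) * (10506 / 2500 * ((ρ:ℝ) + 4)) ≤
        ∏ i ∈ range q, Real.exp (hatY ν (s - i / n)) := by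
      refine le_trans ?_ hprod
      calc Real.exp (hatY ν m) * (10506 / 2500 * ((ρ:ℝ) + 4))
          ≤ Real.exp (hatY ν m) * Real.exp (2 + 3 * m + Real.log (5 * c)) :=
            mul_le_mul_of_nonneg_left hloss (Real.exp_nonneg _)
        _ = Real.exp (hatY ν m + (2 + 3 * m + Real.log (5 * c))) := by rw [← Real.exp_add]
        _ ≤ _ := Real.exp_le_exp.mpr hg
    linarith

end Pool.Agent.Run7.h721.KL3
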