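import Pool.Agent.Run7.h721.KL3.Lev

/-!
# Project KL3: the base block and all levels
-/

set_option linter.unusedVariables false

namespace Pool.Agent.Run7.h721.KL3

open Finset Filter Topology
open Pool.Agent.N35.HL

theorem base_lev : ∃ t r w b : ℕ, ∃ y : ℝ, Lv t r w b (Real.exp y) ∧
    (33:ℝ) ^ 2 * (98 + Real.log (5 * ((64 * (6 * (b + 1) + 111) + t + r + w : ℕ) : ℝ))) ≤
      10 * y := by
  obtain ⟨A, ρ, τ, Bh, hA, hBh, hlev⟩ := levels
  obtain ⟨C', hC'⟩ : ∃ C', C' = 64 * (6 * Bh + 111) + τ + 5 * ρ := ⟨_, rfl⟩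
  have hC'1 : 1 ≤ C' := by omega
  have hlog := (Real.isLittleO_log_id_atTop).bound (c := 1 / 10000) (by norm_num)
  obtain ⟨X, hX⟩ := Filter.eventually_atTop.mp
    (hlog.and (eventually_ge_atTop (max 1 (1089 * (98 + Real.log (80 * C'))))))
  obtain ⟨s, hs⟩ := exists_nat_ge (2 * X)
  have h1 := Mu_ge (A := A) (by omega) s
  have hμ1 := Mu_pos (A := A) (by omega) s
  have hl := hlev s
  obtain ⟨μ, hμ⟩ : ∃ μ, μ = Mu A s := ⟨_, rfl⟩
  rw [← hμ] at h1 hμ1 hl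
  refine ⟨_, _, _, _, _, hl, ?_⟩
  have h1r : (s:ℝ) + 2 ≤ 2 * μ := by exact_mod_cast h1
  have hXμ : X ≤ μ := by linarith
  obtain ⟨hx1, hx2⟩ := hX μ hXμ
  have hμ0 : (1:ℝ) ≤ μ := by exact_mod_cast hμ1
  have hμp : (0:ℝ) < μ := by linarith
  have hlogμ : 0 ≤ Real.log μ := Real.log_nonneg hμ0
  rw [Real.norm_eq_abs, Real.norm_eq_abs, abs_of_nonneg hlogμ, id, abs_of_pos hμp] at hx1
  have hx3 : 1089 * (98 + Real.log (80 * C')) ≤ μ := (le_max_right _ _).trans hx2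
  -- the constant
  have hb : Bh * μ - 1 + 1 = Bh * μ := by
    have : 1 ≤ Bh * μ := Nat.mul_pos hBh hμ1
    omega
  rw [hb]
  have hcle : 64 * (6 * (Bh * μ) + 111) + τ * (s + 1) ^ 4 * μ + ρ * (s + 1) ^ 3 * μ +
      4 * ρ * (s + 1) ^ 4 * μ ≤ 16 * C' * μ ^ 5 := by
    have a1 : (s + 1) ^ 4 ≤ 16 * μ ^ 4 := by
      calc (s + 1) ^ 4 ≤ (2 * μ) ^ 4 := Nat.pow_le_pow_left (by omega) 4
        _ = 16 * μ ^ 4 := by ring
    have a2 : (s + 1) ^ 3 ≤ (s + 1) ^ 4 := Nat.pow_le_pow_right (by omega) (by norm_num)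
    have a3 : ρ * (s + 1) ^ 3 * μ ≤ ρ * (16 * μ ^ 4) * μ :=
      Nat.mul_le_mul_right _ (Nat.mul_le_mul_left _ (a2.trans a1))
    have a4 : τ * (s + 1) ^ 4 * μ ≤ τ * (16 * μ ^ 4) * μ :=
      Nat.mul_le_mul_right _ (Nat.mul_le_mul_left _ a1)
    have a5 : 4 * ρ * (s + 1) ^ 4 * μ ≤ 4 * ρ * (16 * μ ^ 4) * μ :=
      Nat.mul_le_mul_right _ (Nat.mul_le_mul_left _ a1)
    have a6 : 64 * (6 * (Bh * μ) + 111) ≤ 16 * (64 * (6 * Bh + 111)) * μ ^ 5 := by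
      have b1 : μ ≤ μ ^ 5 := Nat.le_self_pow (by norm_num) μ
      have b2 : 1 ≤ μ ^ 5 := Nat.one_le_pow _ _ hμ1
      have b3 : Bh * μ ≤ Bh * μ ^ 5 := Nat.mul_le_mul_left _ b1
      have e1 : 16 * (64 * (6 * Bh + 111)) * μ ^ 5 = 6144 * (Bh * μ ^ 5) + 113664 * μ ^ 5 := by
        ring
      rw [e1]
      omega
    have e2 : 16 * C' * μ ^ 5 = 16 * (64 * (6 * Bh + 111)) * μ ^ 5 + τ * (16 * μ ^ 4) * μ +
        ρ * (16 * μ ^ 4) * μ + 4 * ρ * (16 * μ ^ 4) * μ := by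
      rw [hC']; ring
    rw [e2]
    omega
  have hpos : (0:ℝ) < 5 * ((64 * (6 * (Bh * μ) + 111) + τ * (s + 1) ^ 4 * μ +
      ρ * (s + 1) ^ 3 * μ + 4 * ρ * (s + 1) ^ 4 * μ : ℕ) : ℝ) := by
    have : 0 < 64 * (6 * (Bh * μ) + 111) + τ * (s + 1) ^ 4 * μ +
      ρ * (s + 1) ^ 3 * μ + 4 * ρ * (s + 1) ^ 4 * μ := by omega
    have h2 : (0:ℝ) < ((64 * (6 * (Bh * μ) + 111) + τ * (s + 1) ^ 4 * μ +
      ρ * (s + 1) ^ 3 * μ + 4 * ρ * (s + 1) ^ 4 * μ : ℕ) : ℝ) := by exact_mod_cast this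
    linarith
  have hC0 : (0:ℝ) < C' := by exact_mod_cast hC'1
  have hlog2 : Real.log (5 * ((64 * (6 * (Bh * μ) + 111) + τ * (s + 1) ^ 4 * μ +
      ρ * (s + 1) ^ 3 * μ + 4 * ρ * (s + 1) ^ 4 * μ : ℕ) : ℝ)) ≤
      Real.log (80 * C') + 5 * Real.log μ := by
    have e : Real.log (80 * C') + 5 * Real.log μ = Real.log (80 * C' * (μ:ℝ) ^ 5) := by
      rw [Real.log_mul (by positivity : (80 * (C':ℝ)) ≠ 0) (by positivity : (μ:ℝ) ^ 5 ≠ 0),
        Real.log_pow]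
      norm_num
    rw [e]
    apply Real.log_le_log hpos
    have h2 : ((64 * (6 * (Bh * μ) + 111) + τ * (s + 1) ^ 4 * μ + ρ * (s + 1) ^ 3 * μ +
      4 * ρ * (s + 1) ^ 4 * μ : ℕ) : ℝ) ≤ ((16 * C' * μ ^ 5 : ℕ) : ℝ) := by exact_mod_cast hcle
    push_cast at h2 ⊢
    linarith
  have hy : (μ:ℝ) / 3 ≤ 1 / 3 * (1 + 1 / ((s:ℝ) + 1)) * μ := by
    have : 0 ≤ 1 / ((s:ℝ) + 1) * μ := by positivity
    linarith
  linarith

theorem t_LEV (hC : S_CHAIN) : S_LEV := by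
  obtain ⟨t, r, w, b, y, h0, hy⟩ := base_lev
  obtain ⟨c, hc⟩ : ∃ c, c = 64 * (6 * (b + 1) + 111) + t + r + w := ⟨_, rfl⟩
  rw [← hc] at hy
  have hc1 : 1 ≤ c := by omega
  have hc0 : (1:ℝ) ≤ c := by exact_mod_cast hc1
  have hL : 0 ≤ Real.log (5 * c) := Real.log_nonneg (by linarith)
  have hy0 : 0 < y := by linarith
  set ν : ℝ := y / 2 ^ 32 with hν
  have hν0 : 0 < ν := by positivity
  have hνc := nu_ok (ν := ν) (L := Real.log (5 * c)) hν0 hL (by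
    rw [hν]
    have e : 10 * (y / 2 ^ 32) * 2 ^ 32 = 10 * y := by field_simp
    rw [e]; exact hy)
  have hblk : ∀ m, Blk c (b + 1) ν m := by
    intro m
    induction m using Nat.strong_induction_on with
    | _ m ih =>
      by_cases hm : 32 ≤ m
      · exact lev_step hC (by omega) (by omega) hν0 hνc hm ih
      · refine h0.mono ?_ ?_ ?_ ?_ ?_
        · have h1 : 1 ≤ Dp m := Dp_pos m
          calc t ≤ 1 * (2 * c * 1 * 1) := by omega
            _ ≤ 2 ^ m * hatT c m := Nat.mul_le_mul Nat.one_le_two_pow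
              (Nat.mul_le_mul (Nat.mul_le_mul_left _ (Nat.one_le_pow _ _ (by omega))) h1)
        · calc r ≤ 1 * (c * 1) := by omega
            _ ≤ 2 ^ m * hatR c m := Nat.mul_le_mul Nat.one_le_two_pow
              (Nat.mul_le_mul_left _ (Nat.one_le_pow _ _ (by omega)))
        · calc w ≤ 1 * (8 * c * 1) := by omega
            _ ≤ 2 ^ m * hatW c m := Nat.mul_le_mul Nat.one_le_two_pow
              (Nat.mul_le_mul_left _ (Nat.one_le_pow _ _ (by omega)))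
        · calc b ≤ (b + 1) * 1 := by omega
            _ ≤ (b + 1) * 2 ^ m := Nat.mul_le_mul_left _ Nat.one_le_two_pow
        · apply Real.exp_le_exp.mpr
          unfold hatY
          have h1 : (2:ℝ) ^ m ≤ 2 ^ 31 := pow_le_pow_right₀ (by norm_num) (by omega)
          have h2 : 1 + 1 / ((m:ℝ) + 1) ≤ 2 := by
            have : 1 / ((m:ℝ) + 1) ≤ 1 := by
              rw [div_le_one (by positivity)]
              have : (0:ℝ) ≤ m := Nat.cast_nonneg _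
              linarith
            linarith
          calc ν * 2 ^ m * (1 + 1 / ((m:ℝ) + 1)) ≤ ν * 2 ^ 31 * 2 := by
                apply mul_le_mul _ h2 (by positivity) (by positivity)
                exact mul_le_mul_of_nonneg_left h1 hν0.le
            _ = y := by rw [hν]; ring
  refine ⟨Dp, 8 * c + b + 1, ν, hν0, by omega, Dp_pos, Dp_slow, fun m => ?_⟩
  refine (hblk m).mono ?_ ?_ ?_ ?_ ?_
  · apply Nat.mul_le_mul_left
    unfold hatT
    exact Nat.mul_le_mul_right _ (Nat.mul_le_mul_right _ (by omega))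
  · apply Nat.mul_le_mul_left
    unfold hatR
    exact Nat.mul_le_mul_right _ (by omega)
  · apply Nat.mul_le_mul_left
    unfold hatW
    exact Nat.mul_le_mul_right _ (by omega)
  · rw [mul_comm]
    exact Nat.mul_le_mul_left _ (by omega)
  · apply Real.exp_le_exp.mpr
    unfold hatY
    have h1 : 0 ≤ ν * 2 ^ m * (1 / ((m:ℝ) + 1)) := by positivity
    linarith

end Pool.Agent.Run7.h721.KL3
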